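import Pool.Agent.Helper63.ML.Defs

/-!
# Block ML-NV: nonvanishing of the cubic sum (helper40)
-/

set_option autoImplicit false
namespace Pool.Agent.Helper63.ML
open Complex Metric
open scoped ComplexConjugate

namespace NV

theorem om_mul_om : om * om = conj om := by
  have h3 : Real.sqrt 3 * Real.sqrt 3 = 3 := Real.mul_self_sqrt (by norm_num)
  apply Complex.ext
  · simp only [om, mul_re, conj_re]
    linear_combination (-1 / 4 : ℝ) * h3
  · simp only [om, mul_im, conj_im]
    ring

theorem om_mul_conj : om * conj om = 1 := by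
  have h3 : Real.sqrt 3 * Real.sqrt 3 = 3 := Real.mul_self_sqrt (by norm_num)
  apply Complex.ext
  · simp only [om, mul_re, conj_re, conj_im, one_re]
    linear_combination (1 / 4 : ℝ) * h3
  · simp only [om, mul_im, conj_re, conj_im, one_im]
    ring

theorem om_cube : om * om * om = 1 := by
  rw [om_mul_om, mul_comm, om_mul_conj]

section

variable {ι : Type*} (w w' : ι → ℂ)

/-- the Hermitian form -/
noncomputable def b (x y : ι) : ℂ := w x * conj (w y) - conj (w' x) * w' y

theorem b_conj (x y : ι) : b w w' y x = conj (b w w' x y) := by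
  unfold b
  rw [map_sub, map_mul, map_mul, conj_conj, conj_conj]
  ring

variable {w w'} {r : ι → ι} (hw : ∀ x, w (r x) = om * w x)
  (hw' : ∀ x, w' (r x) = conj om * w' x)

include hw hw'

theorem b_left (x y : ι) : b w w' (r x) y = om * b w w' x y := by
  unfold b
  rw [hw, hw', map_mul, conj_conj]
  ring

theorem b_right (x y : ι) : b w w' x (r y) = conj om * b w w' x y := by
  unfold b
  rw [hw, hw', map_mul]
  ring

theorem b_both (x y : ι) : b w w' (r x) (r y) = b w w' x y := by
  rw [b_left hw hw', b_right hw hw', ← mul_assoc, om_mul_conj, one_mul]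

end

end NV

open NV in
theorem cubic_ne_zero {ι : Type*} [Fintype ι] [DecidableEq ι] (r : ι → ι)
    (hr3 : ∀ x, r (r (r x)) = x) (w w' : ι → ℂ) (m : ι → ℝ) (hm : ∀ x, 0 ≤ m x)
    (hmr : ∀ x, m (r x) = m x) (hw : ∀ x, w (r x) = om * w x) (hw' : ∀ x, w' (r x) = conj om * w' x)
    (hpos : ∃ x, 0 < m x)
    (hpat : ∀ x y, 0 < m x → 0 < m y → Pat (w x * conj (w y) - conj (w' x) * w' y))
    (htr : ∀ x y z, 0 < m x → 0 < m y → 0 < m z →
      0 < (w x * conj (w y) - conj (w' x) * w' y).re →
      0 < (w y * conj (w z) - conj (w' y) * w' z).re →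
      0 < (w x * conj (w z) - conj (w' x) * w' z).re) :
    (∑ x, ∑ y, ∑ z, if 0 < (w x * conj (w y) - conj (w' x) * w' y).re ∧
        0 < (w y * conj (w z) - conj (w' y) * w' z).re ∧
        0 < (w x * conj (w z) - conj (w' x) * w' z).re
      then ((m x * m y * m z : ℝ) : ℂ) * (w x * w y * w z) else 0) ≠ 0 := by
  classical
  obtain ⟨x0, hx0⟩ := hpos
  -- the relation
  set R : ι → ι → Prop := fun x y => 0 < (b w w' x y).re with hR
  have hpat' : ∀ x y, 0 < m x → 0 < m y → Pat (b w w' x y) := hpat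
  have htr' : ∀ x y z, 0 < m x → 0 < m y → 0 < m z → R x y → R y z → R x z := htr
  have hsymm : ∀ x y, R x y → R y x := by
    intro x y h
    change 0 < (b w w' y x).re
    rw [b_conj w w' x y, conj_re]
    exact h
  have hrr : ∀ x y, R (r x) (r y) ↔ R x y := by
    intro x y
    change 0 < (b w w' (r x) (r y)).re ↔ 0 < (b w w' x y).re
    rw [b_both hw hw']
  have hrefl : ∀ x, 0 < m x → R x x := by
    intro x hx
    have him : (b w w' x x).im = 0 := by
      have h := b_conj w w' x x
      have h2 := congrArg Complex.im h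
      rw [conj_im] at h2
      linarith
    have h1 : (om * b w w' x x).re = (conj om * b w w' x x).re := by
      rw [mul_re, mul_re, him]
      simp [om]
    rcases hpat' x x hx hx with h | h | h
    · exact h.1
    · rw [← h1] at h
      exact absurd h.2.1 (not_lt.mpr h.2.2.le)
    · rw [← h1] at h
      exact absurd h.2.2 (not_lt.mpr h.2.1.le)
  -- the class of `x0`
  set C : ι → Prop := fun x => 0 < m x ∧ R x x0 with hC
  have hone : ∀ x, 0 < m x → (C x ∧ ¬ C (r x) ∧ ¬ C (r (r x))) ∨
      (¬ C x ∧ C (r x) ∧ ¬ C (r (r x))) ∨ (¬ C x ∧ ¬ C (r x) ∧ C (r (r x))) := by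
    intro x hx
    have e1 : (b w w' (r x) x0) = om * b w w' x x0 := b_left hw hw' x x0
    have e2 : (b w w' (r (r x)) x0) = conj om * b w w' x x0 := by
      rw [b_left hw hw', b_left hw hw', ← mul_assoc, om_mul_om]
    have hx1 : 0 < m (r x) := by rw [hmr]; exact hx
    have hx2 : 0 < m (r (r x)) := by rw [hmr]; exact hx1
    have c0 : C x ↔ 0 < (b w w' x x0).re := ⟨fun h => h.2, fun h => ⟨hx, h⟩⟩
    have c1 : C (r x) ↔ 0 < (om * b w w' x x0).re := by
      rw [← e1]; exact ⟨fun h => h.2, fun h => ⟨hx1, h⟩⟩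
    have c2 : C (r (r x)) ↔ 0 < (conj om * b w w' x x0).re := by
      rw [← e2]; exact ⟨fun h => h.2, fun h => ⟨hx2, h⟩⟩
    rw [c0, c1, c2]
    rcases hpat' x x0 hx hx0 with h | h | h
    · exact Or.inl ⟨h.1, not_lt.mpr h.2.1.le, not_lt.mpr h.2.2.le⟩
    · exact Or.inr (Or.inl ⟨not_lt.mpr h.1.le, h.2.1, not_lt.mpr h.2.2.le⟩)
    · exact Or.inr (Or.inr ⟨not_lt.mpr h.1.le, not_lt.mpr h.2.1.le, h.2.2⟩)
  have hCm : ∀ x, C x → 0 < m x := fun x h => h.1
  have hCR : ∀ x y, C x → C y → R x y := fun x y hx hy =>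
    htr' x x0 y hx.1 hx0 hy.1 hx.2 (hsymm _ _ hy.2)
  have hRC : ∀ x y, 0 < m y → R x y → C x → C y := fun x y hy hxy hx =>
    ⟨hy, htr' y x x0 hy hx.1 hx0 (hsymm _ _ hxy) hx.2⟩
  have hRiff : ∀ x y, 0 < m x → 0 < m y →
      (R x y ↔ (C x ∧ C y) ∨ (C (r x) ∧ C (r y)) ∨ (C (r (r x)) ∧ C (r (r y)))) := by
    intro x y hx hy
    have hy1 : 0 < m (r y) := by rw [hmr]; exact hy
    have hy2 : 0 < m (r (r y)) := by rw [hmr]; exact hy1
    constructor
    · intro h
      have h1 : R (r x) (r y) := (hrr x y).mpr h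
      have h2 : R (r (r x)) (r (r y)) := (hrr _ _).mpr h1
      rcases hone x hx with h' | h' | h'
      · exact Or.inl ⟨h'.1, hRC x y hy h h'.1⟩
      · exact Or.inr (Or.inl ⟨h'.2.1, hRC _ _ hy1 h1 h'.2.1⟩)
      · exact Or.inr (Or.inr ⟨h'.2.2, hRC _ _ hy2 h2 h'.2.2⟩)
    · rintro (h | h | h)
      · exact hCR x y h.1 h.2
      · exact (hrr x y).mp (hCR _ _ h.1 h.2)
      · exact (hrr x y).mp ((hrr _ _).mp (hCR _ _ h.1 h.2))
  -- the three partial sums
  set g : ι → ℂ := fun x => if C x then (m x : ℂ) * w x else 0 with hg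
  have hgr : ∀ x, g (r x) = om * (if C (r x) then (m x : ℂ) * w x else 0) := by
    intro x
    simp only [hg]
    split_ifs with h
    · rw [hmr, hw]; ring
    · rw [mul_zero]
  have hgrr : ∀ x, g (r (r x)) = conj om * (if C (r (r x)) then (m x : ℂ) * w x else 0) := by
    intro x
    simp only [hg]
    split_ifs with h
    · rw [hmr, hmr, hw, hw, ← om_mul_om]; ring
    · rw [mul_zero]
  have hcc : conj om * conj om * conj om = 1 := by
    have := congrArg conj om_cube
    rwa [map_mul, map_mul, map_one] at this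
  have hpt : ∀ x y z, (if R x y ∧ R y z ∧ R x z
      then ((m x * m y * m z : ℝ) : ℂ) * (w x * w y * w z) else 0) =
      g x * g y * g z + g (r x) * g (r y) * g (r z) + g (r (r x)) * g (r (r y)) * g (r (r z)) := by
    intro x y z
    have hz0 : ∀ t, ¬ 0 < m t → m t = 0 ∧ ¬ C t ∧ ¬ C (r t) ∧ ¬ C (r (r t)) := by
      intro t ht
      refine ⟨le_antisymm (not_lt.mp ht) (hm t), fun h => ht (hCm _ h), fun h => ht ?_,
        fun h => ht ?_⟩
      · have := hCm _ h; rwa [hmr] at this
      · have := hCm _ h; rwa [hmr, hmr] at this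
    rw [hgr x, hgr y, hgr z, hgrr x, hgrr y, hgrr z]
    have hprod1 : ∀ a b c : ℂ, om * a * (om * b) * (om * c) = a * b * c := by
      intro a b c
      linear_combination (a * b * c) * om_cube
    have hprod2 : ∀ a b c : ℂ, conj om * a * (conj om * b) * (conj om * c) = a * b * c := by
      intro a b c
      linear_combination (a * b * c) * hcc
    rw [hprod1, hprod2]
    simp only [hg]
    by_cases hx : 0 < m x
    · by_cases hy : 0 < m y
      · by_cases hz : 0 < m z
        · simp only [hRiff x y hx hy, hRiff y z hy hz, hRiff x z hx hz]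
          rcases hone x hx with ⟨a1, a2, a3⟩ | ⟨a1, a2, a3⟩ | ⟨a1, a2, a3⟩ <;>
          rcases hone y hy with ⟨b1, b2, b3⟩ | ⟨b1, b2, b3⟩ | ⟨b1, b2, b3⟩ <;>
          rcases hone z hz with ⟨c1, c2, c3⟩ | ⟨c1, c2, c3⟩ | ⟨c1, c2, c3⟩ <;>
          simp only [a1, a2, a3, b1, b2, b3, c1, c2, c3, and_self, and_true, and_false, true_and,
            false_and, or_self, or_true, true_or, or_false, false_or, if_true, if_false, mul_zero,
            zero_mul, add_zero, zero_add, not_true, not_false_eq_true] <;>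
          (push_cast; ring)
        · obtain ⟨h0, h1, h2, h3⟩ := hz0 z hz
          simp [h0, h1, h2, h3]
      · obtain ⟨h0, h1, h2, h3⟩ := hz0 y hy
        simp [h0, h1, h2, h3]
    · obtain ⟨h0, h1, h2, h3⟩ := hz0 x hx
      simp [h0, h1, h2, h3]
  set v : ℂ := ∑ x, g x with hv
  have hrbij : Function.Bijective r := by
    have hinj : Function.Injective r := by
      intro x y h
      have := congrArg (fun t => r (r t)) h
      simpa only [hr3] using this
    exact Finite.injective_iff_bijective.mp hinj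
  have hsum1 : ∑ x, g (r x) = v := hrbij.sum_comp g
  have hsum2 : ∑ x, g (r (r x)) = v := by
    rw [hrbij.sum_comp (fun x => g (r x)), hsum1]
  have hcube : ∀ f : ι → ℂ, ∑ x, ∑ y, ∑ z, f x * f y * f z = (∑ x, f x) ^ 3 := by
    intro f
    have h1 : ∀ x y, ∑ z, f x * f y * f z = f x * f y * ∑ z, f z := by
      intro x y
      rw [Finset.mul_sum]
    simp only [h1]
    have h2 : ∀ x, ∑ y, f x * f y * ∑ z, f z = f x * ((∑ y, f y) * ∑ z, f z) := by
      intro x
      rw [← Finset.sum_mul, ← Finset.mul_sum, mul_assoc]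
    simp only [h2]
    rw [← Finset.sum_mul]
    ring
  have htotal : (∑ x, ∑ y, ∑ z, if R x y ∧ R y z ∧ R x z
      then ((m x * m y * m z : ℝ) : ℂ) * (w x * w y * w z) else 0) = 3 * v ^ 3 := by
    simp only [hpt, Finset.sum_add_distrib]
    rw [hcube g, hcube (fun x => g (r x)), hcube (fun x => g (r (r x))), hsum1, hsum2]
    ring
  change (∑ x, ∑ y, ∑ z, if R x y ∧ R y z ∧ R x z
      then ((m x * m y * m z : ℝ) : ℂ) * (w x * w y * w z) else 0) ≠ 0
  rw [htotal]
  -- `v ≠ 0`
  set g' : ι → ℂ := fun x => if C x then (m x : ℂ) * w' x else 0 with hg'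
  have hkey : 0 < ((∑ x, g x) * conj (∑ y, g y) - conj (∑ x, g' x) * ∑ y, g' y).re := by
    have e1 : (∑ x, g x) * conj (∑ y, g y) - conj (∑ x, g' x) * ∑ y, g' y =
        ∑ x, ∑ y, (if C x ∧ C y then ((m x * m y : ℝ) : ℂ) * b w w' x y else 0) := by
      rw [map_sum, map_sum, Finset.sum_mul_sum, Finset.sum_mul_sum, ← Finset.sum_sub_distrib]
      refine Finset.sum_congr rfl fun x _ => ?_
      rw [← Finset.sum_sub_distrib]
      refine Finset.sum_congr rfl fun y _ => ?_
      simp only [hg, hg', b]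
      by_cases hx : C x
      · by_cases hy : C y
        · simp only [hx, hy, if_true, and_self]
          rw [map_mul, map_mul, conj_ofReal, conj_ofReal]
          push_cast
          ring
        · simp [hy]
      · simp [hx]
    rw [e1, re_sum]
    simp only [re_sum]
    have hterm : ∀ x y, 0 ≤ (if C x ∧ C y then ((m x * m y : ℝ) : ℂ) * b w w' x y else 0).re := by
      intro x y
      split_ifs with h
      · rw [re_ofReal_mul]
        exact mul_nonneg (mul_nonneg (hm x) (hm y)) (hCR x y h.1 h.2).le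
      · simp
    refine Finset.sum_pos' (fun x _ => Finset.sum_nonneg fun y _ => hterm x y)
      ⟨x0, Finset.mem_univ _, ?_⟩
    refine Finset.sum_pos' (fun y _ => hterm x0 y) ⟨x0, Finset.mem_univ _, ?_⟩
    have hCx0 : C x0 := ⟨hx0, hrefl x0 hx0⟩
    rw [if_pos ⟨hCx0, hCx0⟩, re_ofReal_mul]
    exact mul_pos (mul_pos hx0 hx0) (hrefl x0 hx0)
  have hv0 : v ≠ 0 := by
    intro h0
    rw [← hv, h0] at hkey
    have e : (conj (∑ x, g' x) * ∑ y, g' y).re = Complex.normSq (∑ x, g' x) := by
      rw [← Complex.normSq_eq_conj_mul_self, ofReal_re]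
    rw [sub_re, e] at hkey
    have := Complex.normSq_nonneg (∑ x, g' x)
    simp at hkey
    linarith
  exact mul_ne_zero (by norm_num) (pow_ne_zero _ hv0)

end Pool.Agent.Helper63.ML
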